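import Mathlib

/-!
# Kernel-friendly verification of the `3x+1` and `3x-1` maps up to `2^24` (helper14)

`S 0` is the `3x+1` map and `S 1` the `3x-1` map on the naturals.
-/

namespace Pool.Agent.Lib.MP_edb5be_nt.Verify

/-- `e = 0`: the `3x+1` map; `e = 1`: the `3x-1` map. -/
def S (e y : ℕ) : ℕ := if y % 2 = 0 then y / 2 else (3 * y + 1) / 2 - e

/-- power of three attached to the first `k` parities -/
def A (e : ℕ) : ℕ → ℕ → ℕ
  | 0, _ => 1
  | k + 1, y => (if (S e)^[k] y % 2 = 0 then 1 else 3) * A e k y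

theorem A_pos (e k y : ℕ) : 0 < A e k y := by
  induction k with
  | zero => simp [A]
  | succ k ih => rw [A]; split_ifs <;> omega

theorem S_even {e v : ℕ} (h : v % 2 = 0) : S e v = v / 2 := by simp [S, h]

theorem S_odd {e v : ℕ} (h : v % 2 ≠ 0) : S e v = (3 * v + 1) / 2 - e := by simp [S, h]

/-- The class lemma. -/
theorem S_class (e : ℕ) (he : e ≤ 1) (k r q : ℕ) :
    (S e)^[k] (r + 2 ^ k * q) = (S e)^[k] r + A e k r * q := by
  induction k generalizing q with
  | zero => simp [A]
  | succ k ih =>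
    rw [Function.iterate_succ_apply', Function.iterate_succ_apply']
    have h1 : r + 2 ^ (k + 1) * q = r + 2 ^ k * (2 * q) := by ring
    rw [h1, ih, A]
    generalize (S e)^[k] r = v
    generalize A e k r = a
    have e2 : a * (2 * q) = 2 * (a * q) := by ring
    rw [e2]
    by_cases hv : v % 2 = 0
    · rw [S_even (by omega), S_even hv, if_pos hv, one_mul]
      omega
    · rw [S_odd (by omega), S_odd hv, if_neg hv, mul_assoc]
      generalize a * q = z
      omega

/-- jump loop: eight steps at a time with table `tb` (entries of 26 bits: `a * 2^13 + v`) -/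
noncomputable def jl (tb : ℕ) (f : ℕ) : ℕ → ℕ → Bool :=
  Nat.rec (motive := fun _ => ℕ → ℕ → Bool) (fun _ _ => false)
    (fun _ ih y u =>
      Bool.rec (motive := fun _ => Bool) true
        ((fun t => ih y (Nat.add (Nat.mul (Nat.shiftRight t 13) (Nat.div u 256)) (Nat.land t 8191)))
          (Nat.land (Nat.shiftRight tb (Nat.mul 26 (Nat.mod u 256))) 67108863))
         (Nat.ble y u)) f

/-- binary conjunction of `P s, ..., P (s + 2^k - 1)` -/
noncomputable def ball (P : ℕ → Bool) (k : ℕ) : ℕ → Bool :=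
  Nat.rec (motive := fun _ => ℕ → Bool) P
    (fun k ih s => Bool.rec (motive := fun _ => Bool) false (ih (Nat.add s (Nat.pow 2 k))) (ih s)) k

/-- check of one `y = r + 65536 q`; skipped if the bit of `mk` at `y mod 27` is zero -/
noncomputable def pq (tb mk v a r q : ℕ) : Bool :=
  Nat.rec (motive := fun _ => Bool) true
    (fun _ _ => jl tb 60 (Nat.add r (Nat.mul 65536 q)) (Nat.add v (Nat.mul a q)))
    (Nat.land (Nat.shiftRight mk (Nat.mod (Nat.add r (Nat.mul 65536 q)) 27)) 1)

/-- all `y = r + 65536 q`, `q < 256`, in the residue classes modulo `27` given by `mk`, reach a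
value below `y` from `v + a q` -/
noncomputable def lq (tb mk v a r : ℕ) : Bool :=
  ball (pq tb mk v a r) 8 0

/-- first sixteen steps with a check for a drop of the whole residue class;
`g = 1` skips `q = 0`. -/
noncomputable def dk (tb mk e g r : ℕ) (f : ℕ) : ℕ → ℕ → ℕ → Bool :=
  Nat.rec (motive := fun _ => ℕ → ℕ → ℕ → Bool)
    (fun v a _ => lq tb mk (Nat.add v (Nat.mul g a)) a (Nat.add r (Nat.mul 65536 g)))
    (fun _ ih v a p =>
      Bool.rec (motive := fun _ => Bool)
        (Bool.rec (motive := fun _ => Bool) true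
          (Nat.rec (motive := fun _ => Bool) (ih (Nat.div v 2) a (Nat.mul 2 p))
            (fun _ _ => ih (Nat.sub (Nat.div (Nat.add (Nat.mul 3 v) 1) 2) e) (Nat.mul 3 a)
              (Nat.mul 2 p)) (Nat.mod v 2))
          (Nat.ble p a))
        (Nat.rec (motive := fun _ => Bool) (ih (Nat.div v 2) a (Nat.mul 2 p))
            (fun _ _ => ih (Nat.sub (Nat.div (Nat.add (Nat.mul 3 v) 1) 2) e) (Nat.mul 3 a)
              (Nat.mul 2 p)) (Nat.mod v 2))
        (Nat.ble r v)) f

/-- loop over `r = r0, r0 + 2, ..., r0 + 2 (2^n-1)` -/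
noncomputable def lr (tb mk e g r0 : ℕ) (n : ℕ) : Bool :=
  ball (fun i => dk tb mk e g (Nat.add r0 (Nat.mul 2 i)) 16 (Nat.add r0 (Nat.mul 2 i)) 1 1) n 0

/-- The table property. -/
def TableOK (tb e : ℕ) : Prop := ∀ r < 256,
    (tb >>> (26 * r)) &&& 67108863 = A e 8 r * 2 ^ 13 + (S e)^[8] r ∧ (S e)^[8] r < 2 ^ 13

theorem jl_zero (tb y u : ℕ) : jl tb 0 y u = false := rfl

theorem jl_succ (tb f y u : ℕ) : jl tb (f + 1) y u =
    Bool.rec (motive := fun _ => Bool) true
      (jl tb f y ((((tb >>> (26 * (u % 256))) &&& 67108863) >>> 13) * (u / 256) +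
        (((tb >>> (26 * (u % 256))) &&& 67108863) &&& 8191))) (Nat.ble y u) := rfl

theorem S_jump (tb e : ℕ) (he : e ≤ 1) (hT : TableOK tb e) (u : ℕ) :
    (((tb >>> (26 * (u % 256))) &&& 67108863) >>> 13) * (u / 256) +
        (((tb >>> (26 * (u % 256))) &&& 67108863) &&& 8191) = (S e)^[8] u := by
  obtain ⟨h1, h2⟩ := hT (u % 256) (Nat.mod_lt _ (by norm_num))
  rw [h1]
  have hu : u = u % 256 + 2 ^ 8 * (u / 256) := by
    have := Nat.mod_add_div u 256
    norm_num
    omega
  conv_rhs => rw [hu, S_class e he]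
  have e1 : (A e 8 (u % 256) * 2 ^ 13 + (S e)^[8] (u % 256)) >>> 13 = A e 8 (u % 256) := by
    rw [Nat.shiftRight_eq_div_pow]
    generalize A e 8 (u % 256) = a
    generalize (S e)^[8] (u % 256) = v at *
    omega
  have e2 : (A e 8 (u % 256) * 2 ^ 13 + (S e)^[8] (u % 256)) &&& 8191 = (S e)^[8] (u % 256) := by
    rw [show (8191 : ℕ) = 2 ^ 13 - 1 by norm_num, Nat.and_two_pow_sub_one_eq_mod]
    generalize A e 8 (u % 256) = a
    generalize (S e)^[8] (u % 256) = v at *
    omega
  rw [e1, e2, Nat.add_comm]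

theorem jl_spec (tb e : ℕ) (he : e ≤ 1) (hT : TableOK tb e) (f y u : ℕ)
    (h : jl tb f y u = true) : ∃ t, (S e)^[t] u < y := by
  induction f generalizing u with
  | zero => rw [jl_zero] at h; exact absurd h (by decide)
  | succ f ih =>
    rw [jl_succ, S_jump tb e he hT] at h
    rcases hb : Nat.ble y u with _ | _
    · refine ⟨0, ?_⟩
      have : ¬ y ≤ u := by
        intro hle
        rw [Nat.ble_eq.mpr hle] at hb
        exact absurd hb (by decide)
      simpa using this
    · rw [hb] at h
      obtain ⟨t, ht⟩ := ih _ h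
      exact ⟨t + 8, by rw [Function.iterate_add_apply]; exact ht⟩

theorem ball_succ (P : ℕ → Bool) (k s : ℕ) : ball P (k + 1) s =
    Bool.rec (motive := fun _ => Bool) false (ball P k (s + 2 ^ k)) (ball P k s) := rfl

theorem ball_spec (P : ℕ → Bool) (k s : ℕ) (h : ball P k s = true) :
    ∀ i < 2 ^ k, P (s + i) = true := by
  induction k generalizing s with
  | zero =>
    intro i hi
    have : i = 0 := by simpa using hi
    subst this
    exact h
  | succ k ih =>
    rw [ball_succ] at h
    rcases hb : ball P k s with _ | _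
    · rw [hb] at h; exact Bool.noConfusion (h : false = true)
    · rw [hb] at h
      intro i hi
      rcases Nat.lt_or_ge i (2 ^ k) with hlt | hge
      · exact ih s hb i hlt
      · have := ih (s + 2 ^ k) h (i - 2 ^ k) (by rw [pow_succ] at hi; omega)
        rw [show s + 2 ^ k + (i - 2 ^ k) = s + i by omega] at this
        exact this

theorem lq_spec (tb mk e : ℕ) (he : e ≤ 1) (hT : TableOK tb e) (v a r : ℕ)
    (h : lq tb mk v a r = true) (q : ℕ) (hq : q < 256)
    (h3 : (mk >>> ((r + 65536 * q) % 27)) &&& 1 ≠ 0) :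
    ∃ t, (S e)^[t] (v + a * q) < r + 65536 * q := by
  have hP : pq tb mk v a r q = true := by
    unfold lq at h
    have := ball_spec _ 8 0 h q hq
    rwa [Nat.zero_add] at this
  obtain ⟨m, hm⟩ : ∃ m, (mk >>> ((r + 65536 * q) % 27)) &&& 1 = m + 1 :=
    Nat.exists_eq_succ_of_ne_zero h3
  have hb' : (Nat.rec (motive := fun _ => Bool) true
        (fun _ _ => jl tb 60 (r + 65536 * q) (v + a * q))
        ((mk >>> ((r + 65536 * q) % 27)) &&& 1) : Bool) = true := hP
  rw [hm] at hb'
  exact jl_spec tb e he hT 60 _ _ hb'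

theorem dk_zero (tb mk e g r v a p : ℕ) : dk tb mk e g r 0 v a p =
    lq tb mk (v + g * a) a (r + 65536 * g) := rfl

theorem dk_succ (tb mk e g r f v a p : ℕ) : dk tb mk e g r (f + 1) v a p =
    Bool.rec (motive := fun _ => Bool)
        (Bool.rec (motive := fun _ => Bool) true
          (Nat.rec (motive := fun _ => Bool) (dk tb mk e g r f (v / 2) a (2 * p))
            (fun _ _ => dk tb mk e g r f ((3 * v + 1) / 2 - e) (3 * a) (2 * p)) (v % 2))
          (Nat.ble p a))
        (Nat.rec (motive := fun _ => Bool) (dk tb mk e g r f (v / 2) a (2 * p))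
            (fun _ _ => dk tb mk e g r f ((3 * v + 1) / 2 - e) (3 * a) (2 * p)) (v % 2))
        (Nat.ble r v) := rfl

theorem dk_spec (tb mk e : ℕ) (he : e ≤ 1) (hT : TableOK tb e) (g r f k : ℕ) (hf : f + k = 16)
    (h : dk tb mk e g r f ((S e)^[k] r) (A e k r) (2 ^ k) = true) (q : ℕ) (hg : g ≤ q)
    (hq : q < 256) (h3 : (mk >>> ((r + 65536 * q) % 27)) &&& 1 ≠ 0) :
    ∃ t, (S e)^[t] (r + 65536 * q) < r + 65536 * q := by
  induction f generalizing k with
  | zero =>
    have hk : k = 16 := by omega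
    subst hk
    rw [dk_zero] at h
    have h1 := lq_spec tb mk e he hT _ _ _ h (q - g) (by omega)
      (by rw [show r + 65536 * g + 65536 * (q - g) = r + 65536 * q by omega]; exact h3)
    obtain ⟨t, ht⟩ := h1
    refine ⟨t + 16, ?_⟩
    rw [Function.iterate_add_apply]
    have h2 := S_class e he 16 r q
    rw [show (2 : ℕ) ^ 16 = 65536 by norm_num] at h2
    rw [h2]
    have h4 : (S e)^[16] r + g * A e 16 r + A e 16 r * (q - g) = (S e)^[16] r + A e 16 r * q := by
      obtain ⟨d, rfl⟩ := Nat.exists_eq_add_of_le hg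
      rw [Nat.add_sub_cancel_left]
      ring
    rw [h4] at ht
    have h5 : r + 65536 * g + 65536 * (q - g) = r + 65536 * q := by omega
    rw [h5] at ht
    exact ht
  | succ f ih =>
    rw [dk_succ] at h
    -- the continuation
    have hcont : (Nat.rec (motive := fun _ => Bool)
        (dk tb mk e g r f ((S e)^[k] r / 2) (A e k r) (2 * 2 ^ k))
        (fun _ _ => dk tb mk e g r f ((3 * (S e)^[k] r + 1) / 2 - e) (3 * A e k r) (2 * 2 ^ k))
        ((S e)^[k] r % 2) : Bool) = true →
        ∃ t, (S e)^[t] (r + 65536 * q) < r + 65536 * q := by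
      intro hc
      apply ih (k + 1) (by omega)
      rw [Function.iterate_succ_apply', A, pow_succ, Nat.mul_comm (2 ^ k) 2]
      rcases Nat.mod_two_eq_zero_or_one ((S e)^[k] r) with h0 | h0
      · rw [h0] at hc
        rw [S_even h0, if_pos h0, one_mul]
        exact hc
      · rw [h0] at hc
        rw [S_odd (by omega), if_neg (by omega)]
        exact hc
    rcases hb : Nat.ble r ((S e)^[k] r) with _ | _
    · rw [hb] at h
      rcases hb2 : Nat.ble (2 ^ k) (A e k r) with _ | _
      · -- dead class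
        have h1 : ¬ r ≤ (S e)^[k] r := by
          intro hle
          rw [Nat.ble_eq.mpr hle] at hb
          exact absurd hb (by decide)
        have h2 : ¬ 2 ^ k ≤ A e k r := by
          intro hle
          rw [Nat.ble_eq.mpr hle] at hb2
          exact absurd hb2 (by decide)
        refine ⟨k, ?_⟩
        have h4 : 65536 * q = 2 ^ k * (2 ^ (f + 1) * q) := by
          rw [← mul_assoc, ← pow_add, show k + (f + 1) = 16 by omega]
          norm_num
        rw [h4, S_class e he]
        have h5 : A e k r * (2 ^ (f + 1) * q) ≤ 2 ^ k * (2 ^ (f + 1) * q) :=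
          Nat.mul_le_mul_right _ (by omega)
        omega
      · rw [hb2] at h
        exact hcont h
    · rw [hb] at h
      exact hcont h

theorem lr_spec (tb mk e : ℕ) (he : e ≤ 1) (hT : TableOK tb e) (g r0 n : ℕ)
    (h : lr tb mk e g r0 n = true) (i : ℕ) (hi : i < 2 ^ n) (q : ℕ) (hg : g ≤ q)
    (hq : q < 256) (h3 : (mk >>> ((r0 + 2 * i + 65536 * q) % 27)) &&& 1 ≠ 0) :
    ∃ t, (S e)^[t] (r0 + 2 * i + 65536 * q) < r0 + 2 * i + 65536 * q := by
  have hb := ball_spec _ n 0 h i hi
  rw [Nat.zero_add] at hb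
  exact dk_spec tb mk e he hT g (r0 + 2 * i) 16 0 (by norm_num)
    (by simpa [A] using hb) q hg hq h3

end Pool.Agent.Lib.MP_edb5be_nt.Verify
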