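import Mathlib
import Pool.Agent.Lib.MP_edb5be_nt.Verify.Core

/-!
# Verification for the `3x-1` map up to `16777216` (helper14)
-/

namespace Pool.Agent.Lib.MP_edb5be_nt.Verify

/-- jump table -/
def tb1 : ℕ := 44750570677229455575406558903672549675874309042498601369622700366807990833831522945038007115295982114758549752320031417447230150502993112262385690274619919538445688231708490884005058300693079142654056332390720788851955630155744545058042346883010486335377316480450515775168245875836594721109093707689807171779820493225433431499663396915657357388545658104543186860123546832167715925513089248944357422119131004585461298054819502084284698376530078630908194686145784606459244446182801609660937782536096793880729209891528838130079924144266873514515158783874537675762928563059307027146531265124202170774205906579886203201239151918094708721836716928939686639584206497321903587926189133192855358998436508040441770985296236867508164126742512492856637480001902034387630055578354259461917476850736741385789448660586986921941184395610468917824668748210022806251728953070692203980149461400714836166963287005319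03900262738984317121846214952048018823504591280331535750095074539894258775871883693565105622386835915861031906297081271338664979659769238901996025069292531066224546650750414543929545303046015725159086173761477372128686131145824863986569452592102563824690188291556677295373342972696454886907266829824458438482900313274221044907090782387882033141713212012595147867613011793006442348449295848832206739433621525875510121390681666200804620224964380074109372786479486016855824664214812224187199229733662766798829552996539132296911408081949462839933946979125116822174939410362616951032231419189240422870672997841371276116617023888801302851486979751917027853550790577246876903346191683642159100439241794827590234197876638207096994858143043625941977312751768149664602212056961239371256233718121045386762684073880069679419364479280075171980695193181035006950905679820953419505368577965308801623235794902769736940931060335257428665553186382246067378734924544648220945422011628792015039746032518715193866012104983462117655651737020618173293737161317028580134218415275963789824775891116179194734719071326300906769620992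

/-- residue classes modulo `27` to be checked -/
def mk1 : ℕ := 80881940

theorem tb1_ok : TableOK tb1 1 := by
  unfold TableOK
  decide +kernel

theorem chunk1_0 : lr tb1 mk1 1 0 19 8 = true := by decide +kernel

theorem chunk1_1 : lr tb1 mk1 1 0 531 8 = true := by decide +kernel

theorem chunk1_2 : lr tb1 mk1 1 0 1043 8 = true := by decide +kernel

theorem chunk1_3 : lr tb1 mk1 1 0 1555 8 = true := by decide +kernel

theorem chunk1_4 : lr tb1 mk1 1 0 2067 8 = true := by decide +kernel

theorem chunk1_5 : lr tb1 mk1 1 0 2579 8 = true := by decide +kernel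

theorem chunk1_6 : lr tb1 mk1 1 0 3091 8 = true := by decide +kernel

theorem chunk1_7 : lr tb1 mk1 1 0 3603 8 = true := by decide +kernel

theorem chunk1_8 : lr tb1 mk1 1 0 4115 8 = true := by decide +kernel

theorem chunk1_9 : lr tb1 mk1 1 0 4627 8 = true := by decide +kernel

theorem chunk1_10 : lr tb1 mk1 1 0 5139 8 = true := by decide +kernel

theorem chunk1_11 : lr tb1 mk1 1 0 5651 8 = true := by decide +kernel

theorem chunk1_12 : lr tb1 mk1 1 0 6163 8 = true := by decide +kernel

theorem chunk1_13 : lr tb1 mk1 1 0 6675 8 = true := by decide +kernel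

theorem chunk1_14 : lr tb1 mk1 1 0 7187 8 = true := by decide +kernel

theorem chunk1_15 : lr tb1 mk1 1 0 7699 8 = true := by decide +kernel

theorem chunk1_16 : lr tb1 mk1 1 0 8211 8 = true := by decide +kernel

theorem chunk1_17 : lr tb1 mk1 1 0 8723 8 = true := by decide +kernel

theorem chunk1_18 : lr tb1 mk1 1 0 9235 8 = true := by decide +kernel

theorem chunk1_19 : lr tb1 mk1 1 0 9747 8 = true := by decide +kernel

theorem chunk1_20 : lr tb1 mk1 1 0 10259 8 = true := by decide +kernel

theorem chunk1_21 : lr tb1 mk1 1 0 10771 8 = true := by decide +kernel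

theorem chunk1_22 : lr tb1 mk1 1 0 11283 8 = true := by decide +kernel

theorem chunk1_23 : lr tb1 mk1 1 0 11795 8 = true := by decide +kernel

theorem chunk1_24 : lr tb1 mk1 1 0 12307 8 = true := by decide +kernel

theorem chunk1_25 : lr tb1 mk1 1 0 12819 8 = true := by decide +kernel

theorem chunk1_26 : lr tb1 mk1 1 0 13331 8 = true := by decide +kernel

theorem chunk1_27 : lr tb1 mk1 1 0 13843 8 = true := by decide +kernel

theorem chunk1_28 : lr tb1 mk1 1 0 14355 8 = true := by decide +kernel

theorem chunk1_29 : lr tb1 mk1 1 0 14867 8 = true := by decide +kernel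

theorem chunk1_30 : lr tb1 mk1 1 0 15379 8 = true := by decide +kernel

theorem chunk1_31 : lr tb1 mk1 1 0 15891 8 = true := by decide +kernel

theorem chunk1_32 : lr tb1 mk1 1 0 16403 8 = true := by decide +kernel

theorem chunk1_33 : lr tb1 mk1 1 0 16915 8 = true := by decide +kernel

theorem chunk1_34 : lr tb1 mk1 1 0 17427 8 = true := by decide +kernel

theorem chunk1_35 : lr tb1 mk1 1 0 17939 8 = true := by decide +kernel

theorem chunk1_36 : lr tb1 mk1 1 0 18451 8 = true := by decide +kernel

theorem chunk1_37 : lr tb1 mk1 1 0 18963 8 = true := by decide +kernel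

theorem chunk1_38 : lr tb1 mk1 1 0 19475 8 = true := by decide +kernel

theorem chunk1_39 : lr tb1 mk1 1 0 19987 8 = true := by decide +kernel

theorem chunk1_40 : lr tb1 mk1 1 0 20499 8 = true := by decide +kernel

theorem chunk1_41 : lr tb1 mk1 1 0 21011 8 = true := by decide +kernel

theorem chunk1_42 : lr tb1 mk1 1 0 21523 8 = true := by decide +kernel

theorem chunk1_43 : lr tb1 mk1 1 0 22035 8 = true := by decide +kernel

theorem chunk1_44 : lr tb1 mk1 1 0 22547 8 = true := by decide +kernel

theorem chunk1_45 : lr tb1 mk1 1 0 23059 8 = true := by decide +kernel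

theorem chunk1_46 : lr tb1 mk1 1 0 23571 8 = true := by decide +kernel

theorem chunk1_47 : lr tb1 mk1 1 0 24083 8 = true := by decide +kernel

theorem chunk1_48 : lr tb1 mk1 1 0 24595 8 = true := by decide +kernel

theorem chunk1_49 : lr tb1 mk1 1 0 25107 8 = true := by decide +kernel

theorem chunk1_50 : lr tb1 mk1 1 0 25619 8 = true := by decide +kernel

theorem chunk1_51 : lr tb1 mk1 1 0 26131 8 = true := by decide +kernel

theorem chunk1_52 : lr tb1 mk1 1 0 26643 8 = true := by decide +kernel

theorem chunk1_53 : lr tb1 mk1 1 0 27155 8 = true := by decide +kernel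

theorem chunk1_54 : lr tb1 mk1 1 0 27667 8 = true := by decide +kernel

theorem chunk1_55 : lr tb1 mk1 1 0 28179 8 = true := by decide +kernel

theorem chunk1_56 : lr tb1 mk1 1 0 28691 8 = true := by decide +kernel

theorem chunk1_57 : lr tb1 mk1 1 0 29203 8 = true := by decide +kernel

theorem chunk1_58 : lr tb1 mk1 1 0 29715 8 = true := by decide +kernel

theorem chunk1_59 : lr tb1 mk1 1 0 30227 8 = true := by decide +kernel

theorem chunk1_60 : lr tb1 mk1 1 0 30739 8 = true := by decide +kernel

theorem chunk1_61 : lr tb1 mk1 1 0 31251 8 = true := by decide +kernel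

theorem chunk1_62 : lr tb1 mk1 1 0 31763 8 = true := by decide +kernel

theorem chunk1_63 : lr tb1 mk1 1 0 32275 8 = true := by decide +kernel

theorem chunk1_64 : lr tb1 mk1 1 0 32787 8 = true := by decide +kernel

theorem chunk1_65 : lr tb1 mk1 1 0 33299 8 = true := by decide +kernel

theorem chunk1_66 : lr tb1 mk1 1 0 33811 8 = true := by decide +kernel

theorem chunk1_67 : lr tb1 mk1 1 0 34323 8 = true := by decide +kernel

theorem chunk1_68 : lr tb1 mk1 1 0 34835 8 = true := by decide +kernel

theorem chunk1_69 : lr tb1 mk1 1 0 35347 8 = true := by decide +kernel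

theorem chunk1_70 : lr tb1 mk1 1 0 35859 8 = true := by decide +kernel

theorem chunk1_71 : lr tb1 mk1 1 0 36371 8 = true := by decide +kernel

theorem chunk1_72 : lr tb1 mk1 1 0 36883 8 = true := by decide +kernel

theorem chunk1_73 : lr tb1 mk1 1 0 37395 8 = true := by decide +kernel

theorem chunk1_74 : lr tb1 mk1 1 0 37907 8 = true := by decide +kernel

theorem chunk1_75 : lr tb1 mk1 1 0 38419 8 = true := by decide +kernel

theorem chunk1_76 : lr tb1 mk1 1 0 38931 8 = true := by decide +kernel

theorem chunk1_77 : lr tb1 mk1 1 0 39443 8 = true := by decide +kernel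

theorem chunk1_78 : lr tb1 mk1 1 0 39955 8 = true := by decide +kernel

theorem chunk1_79 : lr tb1 mk1 1 0 40467 8 = true := by decide +kernel

theorem chunk1_80 : lr tb1 mk1 1 0 40979 8 = true := by decide +kernel

theorem chunk1_81 : lr tb1 mk1 1 0 41491 8 = true := by decide +kernel

theorem chunk1_82 : lr tb1 mk1 1 0 42003 8 = true := by decide +kernel

theorem chunk1_83 : lr tb1 mk1 1 0 42515 8 = true := by decide +kernel

theorem chunk1_84 : lr tb1 mk1 1 0 43027 8 = true := by decide +kernel

theorem chunk1_85 : lr tb1 mk1 1 0 43539 8 = true := by decide +kernel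

theorem chunk1_86 : lr tb1 mk1 1 0 44051 8 = true := by decide +kernel

theorem chunk1_87 : lr tb1 mk1 1 0 44563 8 = true := by decide +kernel

theorem chunk1_88 : lr tb1 mk1 1 0 45075 8 = true := by decide +kernel

theorem chunk1_89 : lr tb1 mk1 1 0 45587 8 = true := by decide +kernel

theorem chunk1_90 : lr tb1 mk1 1 0 46099 8 = true := by decide +kernel

theorem chunk1_91 : lr tb1 mk1 1 0 46611 8 = true := by decide +kernel

theorem chunk1_92 : lr tb1 mk1 1 0 47123 8 = true := by decide +kernel

theorem chunk1_93 : lr tb1 mk1 1 0 47635 8 = true := by decide +kernel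

theorem chunk1_94 : lr tb1 mk1 1 0 48147 8 = true := by decide +kernel

theorem chunk1_95 : lr tb1 mk1 1 0 48659 8 = true := by decide +kernel

theorem chunk1_96 : lr tb1 mk1 1 0 49171 8 = true := by decide +kernel

theorem chunk1_97 : lr tb1 mk1 1 0 49683 8 = true := by decide +kernel

theorem chunk1_98 : lr tb1 mk1 1 0 50195 8 = true := by decide +kernel

theorem chunk1_99 : lr tb1 mk1 1 0 50707 8 = true := by decide +kernel

theorem chunk1_100 : lr tb1 mk1 1 0 51219 8 = true := by decide +kernel

theorem chunk1_101 : lr tb1 mk1 1 0 51731 8 = true := by decide +kernel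

theorem chunk1_102 : lr tb1 mk1 1 0 52243 8 = true := by decide +kernel

theorem chunk1_103 : lr tb1 mk1 1 0 52755 8 = true := by decide +kernel

theorem chunk1_104 : lr tb1 mk1 1 0 53267 8 = true := by decide +kernel

theorem chunk1_105 : lr tb1 mk1 1 0 53779 8 = true := by decide +kernel

theorem chunk1_106 : lr tb1 mk1 1 0 54291 8 = true := by decide +kernel

theorem chunk1_107 : lr tb1 mk1 1 0 54803 8 = true := by decide +kernel

theorem chunk1_108 : lr tb1 mk1 1 0 55315 8 = true := by decide +kernel

theorem chunk1_109 : lr tb1 mk1 1 0 55827 8 = true := by decide +kernel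

theorem chunk1_110 : lr tb1 mk1 1 0 56339 8 = true := by decide +kernel

theorem chunk1_111 : lr tb1 mk1 1 0 56851 8 = true := by decide +kernel

theorem chunk1_112 : lr tb1 mk1 1 0 57363 8 = true := by decide +kernel

theorem chunk1_113 : lr tb1 mk1 1 0 57875 8 = true := by decide +kernel

theorem chunk1_114 : lr tb1 mk1 1 0 58387 8 = true := by decide +kernel

theorem chunk1_115 : lr tb1 mk1 1 0 58899 8 = true := by decide +kernel

theorem chunk1_116 : lr tb1 mk1 1 0 59411 8 = true := by decide +kernel

theorem chunk1_117 : lr tb1 mk1 1 0 59923 8 = true := by decide +kernel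

theorem chunk1_118 : lr tb1 mk1 1 0 60435 8 = true := by decide +kernel

theorem chunk1_119 : lr tb1 mk1 1 0 60947 8 = true := by decide +kernel

theorem chunk1_120 : lr tb1 mk1 1 0 61459 8 = true := by decide +kernel

theorem chunk1_121 : lr tb1 mk1 1 0 61971 8 = true := by decide +kernel

theorem chunk1_122 : lr tb1 mk1 1 0 62483 8 = true := by decide +kernel

theorem chunk1_123 : lr tb1 mk1 1 0 62995 8 = true := by decide +kernel

theorem chunk1_124 : lr tb1 mk1 1 0 63507 8 = true := by decide +kernel

theorem chunk1_125 : lr tb1 mk1 1 0 64019 8 = true := by decide +kernel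

theorem chunk1_126 : lr tb1 mk1 1 0 64531 8 = true := by decide +kernel

theorem chunk1_127 : lr tb1 mk1 1 0 65043 8 = true := by decide +kernel

theorem chunk1_s : lr tb1 mk1 1 1 1 4 = true := by decide +kernel

theorem chunks1 (c : ℕ) (hc : c < 128) : lr tb1 mk1 1 0 (19 + 512 * c) 8 = true := by
  interval_cases c
  · exact chunk1_0
  · exact chunk1_1
  · exact chunk1_2
  · exact chunk1_3
  · exact chunk1_4
  · exact chunk1_5
  · exact chunk1_6
  · exact chunk1_7
  · exact chunk1_8
  · exact chunk1_9
  · exact chunk1_10
  · exact chunk1_11
  · exact chunk1_12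
  · exact chunk1_13
  · exact chunk1_14
  · exact chunk1_15
  · exact chunk1_16
  · exact chunk1_17
  · exact chunk1_18
  · exact chunk1_19
  · exact chunk1_20
  · exact chunk1_21
  · exact chunk1_22
  · exact chunk1_23
  · exact chunk1_24
  · exact chunk1_25
  · exact chunk1_26
  · exact chunk1_27
  · exact chunk1_28
  · exact chunk1_29
  · exact chunk1_30
  · exact chunk1_31
  · exact chunk1_32
  · exact chunk1_33
  · exact chunk1_34
  · exact chunk1_35
  · exact chunk1_36
  · exact chunk1_37
  · exact chunk1_38
  · exact chunk1_39
  · exact chunk1_40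
  · exact chunk1_41
  · exact chunk1_42
  · exact chunk1_43
  · exact chunk1_44
  · exact chunk1_45
  · exact chunk1_46
  · exact chunk1_47
  · exact chunk1_48
  · exact chunk1_49
  · exact chunk1_50
  · exact chunk1_51
  · exact chunk1_52
  · exact chunk1_53
  · exact chunk1_54
  · exact chunk1_55
  · exact chunk1_56
  · exact chunk1_57
  · exact chunk1_58
  · exact chunk1_59
  · exact chunk1_60
  · exact chunk1_61
  · exact chunk1_62
  · exact chunk1_63
  · exact chunk1_64
  · exact chunk1_65
  · exact chunk1_66
  · exact chunk1_67
  · exact chunk1_68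
  · exact chunk1_69
  · exact chunk1_70
  · exact chunk1_71
  · exact chunk1_72
  · exact chunk1_73
  · exact chunk1_74
  · exact chunk1_75
  · exact chunk1_76
  · exact chunk1_77
  · exact chunk1_78
  · exact chunk1_79
  · exact chunk1_80
  · exact chunk1_81
  · exact chunk1_82
  · exact chunk1_83
  · exact chunk1_84
  · exact chunk1_85
  · exact chunk1_86
  · exact chunk1_87
  · exact chunk1_88
  · exact chunk1_89
  · exact chunk1_90
  · exact chunk1_91
  · exact chunk1_92
  · exact chunk1_93
  · exact chunk1_94
  · exact chunk1_95
  · exact chunk1_96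
  · exact chunk1_97
  · exact chunk1_98
  · exact chunk1_99
  · exact chunk1_100
  · exact chunk1_101
  · exact chunk1_102
  · exact chunk1_103
  · exact chunk1_104
  · exact chunk1_105
  · exact chunk1_106
  · exact chunk1_107
  · exact chunk1_108
  · exact chunk1_109
  · exact chunk1_110
  · exact chunk1_111
  · exact chunk1_112
  · exact chunk1_113
  · exact chunk1_114
  · exact chunk1_115
  · exact chunk1_116
  · exact chunk1_117
  · exact chunk1_118
  · exact chunk1_119
  · exact chunk1_120
  · exact chunk1_121
  · exact chunk1_122
  · exact chunk1_123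
  · exact chunk1_124
  · exact chunk1_125
  · exact chunk1_126
  · exact chunk1_127

/-- Every odd `y` with `17 < y < 16777216`, in the residue classes modulo `27` given by `mk1`,
reaches a smaller value. -/
theorem drop1 (y : ℕ) (h17 : 17 < y) (hy : y < 16777216) (h2 : y % 2 = 1)
    (h3 : (mk1 >>> (y % 27)) &&& 1 ≠ 0) :
    ∃ t, (S 1)^[t] y < y := by
  obtain ⟨r, q, hr, hq, rfl⟩ : ∃ r q, r < 65536 ∧ q < 256 ∧ y = r + 65536 * q :=
    ⟨y % 65536, y / 65536, Nat.mod_lt _ (by norm_num), by omega, by omega⟩
  have hr2 : r % 2 = 1 := by omega
  rcases Nat.lt_or_ge r 19 with hlt | hge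
  · obtain ⟨i, hi⟩ : ∃ i, r = 1 + 2 * i := ⟨r / 2, by omega⟩
    subst hi
    exact lr_spec tb1 mk1 1 (by norm_num) tb1_ok 1 1 4 chunk1_s i (by omega) q (by omega) hq h3
  · obtain ⟨c, i, hc, hi, hr3⟩ : ∃ c i, c < 128 ∧ i < 2 ^ 8 ∧ r = 19 + 512 * c + 2 * i :=
      ⟨(r - 19) / 512, (r - 19) % 512 / 2, by omega, by omega, by omega⟩
    subst hr3
    exact lr_spec tb1 mk1 1 (by norm_num) tb1_ok 0 (19 + 512 * c) 8 (chunks1 c hc) i hi q
      (by omega) hq h3

end Pool.Agent.Lib.MP_edb5be_nt.Verify
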