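import Mathlib
import Pool.Agent.Lib.MP_edb5be_nt.Verify.Core

/-!
# Verification for the `3x+1` map up to `16777216` (helper14)
-/

namespace Pool.Agent.Lib.MP_edb5be_nt.Verify

/-- jump table -/
def tb0 : ℕ := 362480158347131104380116909694647773587681681630796605016641062943315670704048699549764404124507987198719341141104881966267053496345468365439433331029820148763399971357420595504684286644959294430231174503575906928735540828019610715594357320928853971346107846996257957804959307330034564479929268699186347714685883842971953132266648899238467204914836936109618183414383277144495862788421433084710291473977889863618756494070741892035182350375448116641399768892721295505881835736358872633500667970821911668187121408380526960563744136035815808952910238526493387883627575520753071382958793813531339265208577706816523772687813212078065440552176949878293764478049609319255223425454349947370239560434239051125654212130130709627706865146967141513174756466405677567200006428855679247276448283145972148074486638198645949500953583163024652853856953255119845491710585215638928752713326632177777522685997845314546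056268605120395087793968336143235228181360846397704293430586844879753552110450059434933411478405299198796731172249569600770858865873789694807472405069051730609369289602823916781944954042575679208069373578539788152825760203436018270023767493984042755856801467116848128498695809794317827201899447036455505450954598491956675529856401373081240057973929410634394350866827333009554973836888057102150548533985663933565418096837683274252276995477223347461673038423757540170383891413978583690574042765086964058314557220861510539475081921833659054896087678679935504464767575155941170079126655104048778288836909330680269626792946350891823136664249764879108959449451608110750231345131461776043179973802423018068669036092516601685317795426211976139665438880883409883026273522457024502341223777642520886103517629153986395558539802564829795619132805163929014510572998976920010140251302314370900888971261935511984452699219080371841568575388372608190805688361248758147431086967840722633753733961506127601334949805897734571057992590235299439968357146104999747494543751742940669315027870554151326046662279949306453249553866752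

/-- residue classes modulo `27` to be checked -/
def mk0 : ℕ := 42550450

theorem tb0_ok : TableOK tb0 0 := by
  unfold TableOK
  decide +kernel

theorem chunk0_0 : lr tb0 mk0 0 0 19 8 = true := by decide +kernel

theorem chunk0_1 : lr tb0 mk0 0 0 531 8 = true := by decide +kernel

theorem chunk0_2 : lr tb0 mk0 0 0 1043 8 = true := by decide +kernel

theorem chunk0_3 : lr tb0 mk0 0 0 1555 8 = true := by decide +kernel

theorem chunk0_4 : lr tb0 mk0 0 0 2067 8 = true := by decide +kernel

theorem chunk0_5 : lr tb0 mk0 0 0 2579 8 = true := by decide +kernel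

theorem chunk0_6 : lr tb0 mk0 0 0 3091 8 = true := by decide +kernel

theorem chunk0_7 : lr tb0 mk0 0 0 3603 8 = true := by decide +kernel

theorem chunk0_8 : lr tb0 mk0 0 0 4115 8 = true := by decide +kernel

theorem chunk0_9 : lr tb0 mk0 0 0 4627 8 = true := by decide +kernel

theorem chunk0_10 : lr tb0 mk0 0 0 5139 8 = true := by decide +kernel

theorem chunk0_11 : lr tb0 mk0 0 0 5651 8 = true := by decide +kernel

theorem chunk0_12 : lr tb0 mk0 0 0 6163 8 = true := by decide +kernel

theorem chunk0_13 : lr tb0 mk0 0 0 6675 8 = true := by decide +kernel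

theorem chunk0_14 : lr tb0 mk0 0 0 7187 8 = true := by decide +kernel

theorem chunk0_15 : lr tb0 mk0 0 0 7699 8 = true := by decide +kernel

theorem chunk0_16 : lr tb0 mk0 0 0 8211 8 = true := by decide +kernel

theorem chunk0_17 : lr tb0 mk0 0 0 8723 8 = true := by decide +kernel

theorem chunk0_18 : lr tb0 mk0 0 0 9235 8 = true := by decide +kernel

theorem chunk0_19 : lr tb0 mk0 0 0 9747 8 = true := by decide +kernel

theorem chunk0_20 : lr tb0 mk0 0 0 10259 8 = true := by decide +kernel

theorem chunk0_21 : lr tb0 mk0 0 0 10771 8 = true := by decide +kernel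

theorem chunk0_22 : lr tb0 mk0 0 0 11283 8 = true := by decide +kernel

theorem chunk0_23 : lr tb0 mk0 0 0 11795 8 = true := by decide +kernel

theorem chunk0_24 : lr tb0 mk0 0 0 12307 8 = true := by decide +kernel

theorem chunk0_25 : lr tb0 mk0 0 0 12819 8 = true := by decide +kernel

theorem chunk0_26 : lr tb0 mk0 0 0 13331 8 = true := by decide +kernel

theorem chunk0_27 : lr tb0 mk0 0 0 13843 8 = true := by decide +kernel

theorem chunk0_28 : lr tb0 mk0 0 0 14355 8 = true := by decide +kernel

theorem chunk0_29 : lr tb0 mk0 0 0 14867 8 = true := by decide +kernel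

theorem chunk0_30 : lr tb0 mk0 0 0 15379 8 = true := by decide +kernel

theorem chunk0_31 : lr tb0 mk0 0 0 15891 8 = true := by decide +kernel

theorem chunk0_32 : lr tb0 mk0 0 0 16403 8 = true := by decide +kernel

theorem chunk0_33 : lr tb0 mk0 0 0 16915 8 = true := by decide +kernel

theorem chunk0_34 : lr tb0 mk0 0 0 17427 8 = true := by decide +kernel

theorem chunk0_35 : lr tb0 mk0 0 0 17939 8 = true := by decide +kernel

theorem chunk0_36 : lr tb0 mk0 0 0 18451 8 = true := by decide +kernel

theorem chunk0_37 : lr tb0 mk0 0 0 18963 8 = true := by decide +kernel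

theorem chunk0_38 : lr tb0 mk0 0 0 19475 8 = true := by decide +kernel

theorem chunk0_39 : lr tb0 mk0 0 0 19987 8 = true := by decide +kernel

theorem chunk0_40 : lr tb0 mk0 0 0 20499 8 = true := by decide +kernel

theorem chunk0_41 : lr tb0 mk0 0 0 21011 8 = true := by decide +kernel

theorem chunk0_42 : lr tb0 mk0 0 0 21523 8 = true := by decide +kernel

theorem chunk0_43 : lr tb0 mk0 0 0 22035 8 = true := by decide +kernel

theorem chunk0_44 : lr tb0 mk0 0 0 22547 8 = true := by decide +kernel

theorem chunk0_45 : lr tb0 mk0 0 0 23059 8 = true := by decide +kernel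

theorem chunk0_46 : lr tb0 mk0 0 0 23571 8 = true := by decide +kernel

theorem chunk0_47 : lr tb0 mk0 0 0 24083 8 = true := by decide +kernel

theorem chunk0_48 : lr tb0 mk0 0 0 24595 8 = true := by decide +kernel

theorem chunk0_49 : lr tb0 mk0 0 0 25107 8 = true := by decide +kernel

theorem chunk0_50 : lr tb0 mk0 0 0 25619 8 = true := by decide +kernel

theorem chunk0_51 : lr tb0 mk0 0 0 26131 8 = true := by decide +kernel

theorem chunk0_52 : lr tb0 mk0 0 0 26643 8 = true := by decide +kernel

theorem chunk0_53 : lr tb0 mk0 0 0 27155 8 = true := by decide +kernel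

theorem chunk0_54 : lr tb0 mk0 0 0 27667 8 = true := by decide +kernel

theorem chunk0_55 : lr tb0 mk0 0 0 28179 8 = true := by decide +kernel

theorem chunk0_56 : lr tb0 mk0 0 0 28691 8 = true := by decide +kernel

theorem chunk0_57 : lr tb0 mk0 0 0 29203 8 = true := by decide +kernel

theorem chunk0_58 : lr tb0 mk0 0 0 29715 8 = true := by decide +kernel

theorem chunk0_59 : lr tb0 mk0 0 0 30227 8 = true := by decide +kernel

theorem chunk0_60 : lr tb0 mk0 0 0 30739 8 = true := by decide +kernel

theorem chunk0_61 : lr tb0 mk0 0 0 31251 8 = true := by decide +kernel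

theorem chunk0_62 : lr tb0 mk0 0 0 31763 8 = true := by decide +kernel

theorem chunk0_63 : lr tb0 mk0 0 0 32275 8 = true := by decide +kernel

theorem chunk0_64 : lr tb0 mk0 0 0 32787 8 = true := by decide +kernel

theorem chunk0_65 : lr tb0 mk0 0 0 33299 8 = true := by decide +kernel

theorem chunk0_66 : lr tb0 mk0 0 0 33811 8 = true := by decide +kernel

theorem chunk0_67 : lr tb0 mk0 0 0 34323 8 = true := by decide +kernel

theorem chunk0_68 : lr tb0 mk0 0 0 34835 8 = true := by decide +kernel

theorem chunk0_69 : lr tb0 mk0 0 0 35347 8 = true := by decide +kernel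

theorem chunk0_70 : lr tb0 mk0 0 0 35859 8 = true := by decide +kernel

theorem chunk0_71 : lr tb0 mk0 0 0 36371 8 = true := by decide +kernel

theorem chunk0_72 : lr tb0 mk0 0 0 36883 8 = true := by decide +kernel

theorem chunk0_73 : lr tb0 mk0 0 0 37395 8 = true := by decide +kernel

theorem chunk0_74 : lr tb0 mk0 0 0 37907 8 = true := by decide +kernel

theorem chunk0_75 : lr tb0 mk0 0 0 38419 8 = true := by decide +kernel

theorem chunk0_76 : lr tb0 mk0 0 0 38931 8 = true := by decide +kernel

theorem chunk0_77 : lr tb0 mk0 0 0 39443 8 = true := by decide +kernel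

theorem chunk0_78 : lr tb0 mk0 0 0 39955 8 = true := by decide +kernel

theorem chunk0_79 : lr tb0 mk0 0 0 40467 8 = true := by decide +kernel

theorem chunk0_80 : lr tb0 mk0 0 0 40979 8 = true := by decide +kernel

theorem chunk0_81 : lr tb0 mk0 0 0 41491 8 = true := by decide +kernel

theorem chunk0_82 : lr tb0 mk0 0 0 42003 8 = true := by decide +kernel

theorem chunk0_83 : lr tb0 mk0 0 0 42515 8 = true := by decide +kernel

theorem chunk0_84 : lr tb0 mk0 0 0 43027 8 = true := by decide +kernel

theorem chunk0_85 : lr tb0 mk0 0 0 43539 8 = true := by decide +kernel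

theorem chunk0_86 : lr tb0 mk0 0 0 44051 8 = true := by decide +kernel

theorem chunk0_87 : lr tb0 mk0 0 0 44563 8 = true := by decide +kernel

theorem chunk0_88 : lr tb0 mk0 0 0 45075 8 = true := by decide +kernel

theorem chunk0_89 : lr tb0 mk0 0 0 45587 8 = true := by decide +kernel

theorem chunk0_90 : lr tb0 mk0 0 0 46099 8 = true := by decide +kernel

theorem chunk0_91 : lr tb0 mk0 0 0 46611 8 = true := by decide +kernel

theorem chunk0_92 : lr tb0 mk0 0 0 47123 8 = true := by decide +kernel

theorem chunk0_93 : lr tb0 mk0 0 0 47635 8 = true := by decide +kernel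

theorem chunk0_94 : lr tb0 mk0 0 0 48147 8 = true := by decide +kernel

theorem chunk0_95 : lr tb0 mk0 0 0 48659 8 = true := by decide +kernel

theorem chunk0_96 : lr tb0 mk0 0 0 49171 8 = true := by decide +kernel

theorem chunk0_97 : lr tb0 mk0 0 0 49683 8 = true := by decide +kernel

theorem chunk0_98 : lr tb0 mk0 0 0 50195 8 = true := by decide +kernel

theorem chunk0_99 : lr tb0 mk0 0 0 50707 8 = true := by decide +kernel

theorem chunk0_100 : lr tb0 mk0 0 0 51219 8 = true := by decide +kernel

theorem chunk0_101 : lr tb0 mk0 0 0 51731 8 = true := by decide +kernel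

theorem chunk0_102 : lr tb0 mk0 0 0 52243 8 = true := by decide +kernel

theorem chunk0_103 : lr tb0 mk0 0 0 52755 8 = true := by decide +kernel

theorem chunk0_104 : lr tb0 mk0 0 0 53267 8 = true := by decide +kernel

theorem chunk0_105 : lr tb0 mk0 0 0 53779 8 = true := by decide +kernel

theorem chunk0_106 : lr tb0 mk0 0 0 54291 8 = true := by decide +kernel

theorem chunk0_107 : lr tb0 mk0 0 0 54803 8 = true := by decide +kernel

theorem chunk0_108 : lr tb0 mk0 0 0 55315 8 = true := by decide +kernel

theorem chunk0_109 : lr tb0 mk0 0 0 55827 8 = true := by decide +kernel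

theorem chunk0_110 : lr tb0 mk0 0 0 56339 8 = true := by decide +kernel

theorem chunk0_111 : lr tb0 mk0 0 0 56851 8 = true := by decide +kernel

theorem chunk0_112 : lr tb0 mk0 0 0 57363 8 = true := by decide +kernel

theorem chunk0_113 : lr tb0 mk0 0 0 57875 8 = true := by decide +kernel

theorem chunk0_114 : lr tb0 mk0 0 0 58387 8 = true := by decide +kernel

theorem chunk0_115 : lr tb0 mk0 0 0 58899 8 = true := by decide +kernel

theorem chunk0_116 : lr tb0 mk0 0 0 59411 8 = true := by decide +kernel

theorem chunk0_117 : lr tb0 mk0 0 0 59923 8 = true := by decide +kernel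

theorem chunk0_118 : lr tb0 mk0 0 0 60435 8 = true := by decide +kernel

theorem chunk0_119 : lr tb0 mk0 0 0 60947 8 = true := by decide +kernel

theorem chunk0_120 : lr tb0 mk0 0 0 61459 8 = true := by decide +kernel

theorem chunk0_121 : lr tb0 mk0 0 0 61971 8 = true := by decide +kernel

theorem chunk0_122 : lr tb0 mk0 0 0 62483 8 = true := by decide +kernel

theorem chunk0_123 : lr tb0 mk0 0 0 62995 8 = true := by decide +kernel

theorem chunk0_124 : lr tb0 mk0 0 0 63507 8 = true := by decide +kernel

theorem chunk0_125 : lr tb0 mk0 0 0 64019 8 = true := by decide +kernel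

theorem chunk0_126 : lr tb0 mk0 0 0 64531 8 = true := by decide +kernel

theorem chunk0_127 : lr tb0 mk0 0 0 65043 8 = true := by decide +kernel

theorem chunk0_s : lr tb0 mk0 0 1 1 4 = true := by decide +kernel

theorem chunks0 (c : ℕ) (hc : c < 128) : lr tb0 mk0 0 0 (19 + 512 * c) 8 = true := by
  interval_cases c
  · exact chunk0_0
  · exact chunk0_1
  · exact chunk0_2
  · exact chunk0_3
  · exact chunk0_4
  · exact chunk0_5
  · exact chunk0_6
  · exact chunk0_7
  · exact chunk0_8
  · exact chunk0_9
  · exact chunk0_10
  · exact chunk0_11
  · exact chunk0_12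
  · exact chunk0_13
  · exact chunk0_14
  · exact chunk0_15
  · exact chunk0_16
  · exact chunk0_17
  · exact chunk0_18
  · exact chunk0_19
  · exact chunk0_20
  · exact chunk0_21
  · exact chunk0_22
  · exact chunk0_23
  · exact chunk0_24
  · exact chunk0_25
  · exact chunk0_26
  · exact chunk0_27
  · exact chunk0_28
  · exact chunk0_29
  · exact chunk0_30
  · exact chunk0_31
  · exact chunk0_32
  · exact chunk0_33
  · exact chunk0_34
  · exact chunk0_35
  · exact chunk0_36
  · exact chunk0_37
  · exact chunk0_38
  · exact chunk0_39
  · exact chunk0_40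
  · exact chunk0_41
  · exact chunk0_42
  · exact chunk0_43
  · exact chunk0_44
  · exact chunk0_45
  · exact chunk0_46
  · exact chunk0_47
  · exact chunk0_48
  · exact chunk0_49
  · exact chunk0_50
  · exact chunk0_51
  · exact chunk0_52
  · exact chunk0_53
  · exact chunk0_54
  · exact chunk0_55
  · exact chunk0_56
  · exact chunk0_57
  · exact chunk0_58
  · exact chunk0_59
  · exact chunk0_60
  · exact chunk0_61
  · exact chunk0_62
  · exact chunk0_63
  · exact chunk0_64
  · exact chunk0_65
  · exact chunk0_66
  · exact chunk0_67
  · exact chunk0_68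
  · exact chunk0_69
  · exact chunk0_70
  · exact chunk0_71
  · exact chunk0_72
  · exact chunk0_73
  · exact chunk0_74
  · exact chunk0_75
  · exact chunk0_76
  · exact chunk0_77
  · exact chunk0_78
  · exact chunk0_79
  · exact chunk0_80
  · exact chunk0_81
  · exact chunk0_82
  · exact chunk0_83
  · exact chunk0_84
  · exact chunk0_85
  · exact chunk0_86
  · exact chunk0_87
  · exact chunk0_88
  · exact chunk0_89
  · exact chunk0_90
  · exact chunk0_91
  · exact chunk0_92
  · exact chunk0_93
  · exact chunk0_94
  · exact chunk0_95
  · exact chunk0_96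
  · exact chunk0_97
  · exact chunk0_98
  · exact chunk0_99
  · exact chunk0_100
  · exact chunk0_101
  · exact chunk0_102
  · exact chunk0_103
  · exact chunk0_104
  · exact chunk0_105
  · exact chunk0_106
  · exact chunk0_107
  · exact chunk0_108
  · exact chunk0_109
  · exact chunk0_110
  · exact chunk0_111
  · exact chunk0_112
  · exact chunk0_113
  · exact chunk0_114
  · exact chunk0_115
  · exact chunk0_116
  · exact chunk0_117
  · exact chunk0_118
  · exact chunk0_119
  · exact chunk0_120
  · exact chunk0_121
  · exact chunk0_122
  · exact chunk0_123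
  · exact chunk0_124
  · exact chunk0_125
  · exact chunk0_126
  · exact chunk0_127

/-- Every odd `y` with `17 < y < 16777216`, in the residue classes modulo `27` given by `mk0`,
reaches a smaller value. -/
theorem drop0 (y : ℕ) (h17 : 17 < y) (hy : y < 16777216) (h2 : y % 2 = 1)
    (h3 : (mk0 >>> (y % 27)) &&& 1 ≠ 0) :
    ∃ t, (S 0)^[t] y < y := by
  obtain ⟨r, q, hr, hq, rfl⟩ : ∃ r q, r < 65536 ∧ q < 256 ∧ y = r + 65536 * q :=
    ⟨y % 65536, y / 65536, Nat.mod_lt _ (by norm_num), by omega, by omega⟩
  have hr2 : r % 2 = 1 := by omega
  rcases Nat.lt_or_ge r 19 with hlt | hge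
  · obtain ⟨i, hi⟩ : ∃ i, r = 1 + 2 * i := ⟨r / 2, by omega⟩
    subst hi
    exact lr_spec tb0 mk0 0 (by norm_num) tb0_ok 1 1 4 chunk0_s i (by omega) q (by omega) hq h3
  · obtain ⟨c, i, hc, hi, hr3⟩ : ∃ c i, c < 128 ∧ i < 2 ^ 8 ∧ r = 19 + 512 * c + 2 * i :=
      ⟨(r - 19) / 512, (r - 19) % 512 / 2, by omega, by omega, by omega⟩
    subst hr3
    exact lr_spec tb0 mk0 0 (by norm_num) tb0_ok 0 (19 + 512 * c) 8 (chunks0 c hc) i hi q
      (by omega) hq h3

end Pool.Agent.Lib.MP_edb5be_nt.Verify
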